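import Mathlib
import Pool.Agent.H57.Cent6

namespace Pool.Agent.Results.MP_be4961_gt.OnePlane

open MeasureTheory

/-- The centroid of a set in Euclidean three-space (Lebesgue measure). -/
noncomputable def centroid (K : Set (EuclideanSpace ℝ (Fin 3))) : EuclideanSpace ℝ (Fin 3) :=
  (volume K).toReal⁻¹ • ∫ x in K, x

/-- The centroid of the section of `K` by `H`, for the area measure (two-dimensional Hausdorff
measure normalised to agree with planar Lebesgue measure). -/
noncomputable def sectionCentroid (K : Set (EuclideanSpace ℝ (Fin 3)))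
    (H : AffineSubspace ℝ (EuclideanSpace ℝ (Fin 3))) : EuclideanSpace ℝ (Fin 3) :=
  ((Measure.euclideanHausdorffMeasure 2 : Measure (EuclideanSpace ℝ (Fin 3))) (K ∩ H)).toReal⁻¹ •
    ∫ x in K ∩ H, x ∂(Measure.euclideanHausdorffMeasure 2)

/-- `H` is a plane through the centroid of `K` whose section has the same centroid. -/
def IsCentroidal (K : Set (EuclideanSpace ℝ (Fin 3)))
    (H : AffineSubspace ℝ (EuclideanSpace ℝ (Fin 3))) : Prop :=
  Module.finrank ℝ H.direction = 2 ∧ centroid K ∈ H ∧ sectionCentroid K H = centroid K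

open Pool.Agent.H57.Cent in
theorem result : ∃ K : Set (EuclideanSpace ℝ (Fin 3)),
    IsCompact K ∧ Convex ℝ K ∧ (interior K).Nonempty ∧
      ∃! H : AffineSubspace ℝ (EuclideanSpace ℝ (Fin 3)), IsCentroidal K H := by
  obtain ⟨ε, h0, s, hs, h1, hm⟩ := exists_body
  set K := body ε (fun p : Fin 16 × Fin 6 => lam0 p.1 + s * del0 p.1) ee with hK
  have hc : centroid K = 0 := by
    unfold centroid
    rw [body_center (l := fun j => lam0 j + s * del0 j) h0.le h1 hm, smul_zero]
  have hnn : nn ≠ 0 := by
    intro h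
    have := congrArg (fun x : E3 => x 0) h
    simp [nn] at this
  have hsum : ∀ x : E3, inner ℝ nn x = x 0 + x 1 + x 2 := by
    intro x; rw [inner3]; simp [nn]
  set W0 : Submodule ℝ E3 := (ℝ ∙ nn)ᗮ with hW0
  have hW0m : ∀ x, x ∈ W0 ↔ x 0 + x 1 + x 2 = 0 := by
    intro x
    rw [hW0, Submodule.mem_orthogonal_singleton_iff_inner_right, hsum]
  have hW0r : Module.finrank ℝ W0 = 2 := by
    have h := (ℝ ∙ nn).finrank_add_finrank_orthogonal
    rw [finrank_span_singleton hnn, finrank_euclideanSpace_fin] at h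
    rw [hW0]
    omega
  refine ⟨K, body_compact h0.le h1, body_convex h0.le h1,
    ⟨0, mem_interior.2 ⟨_, sub_body h0.le h1, Metric.isOpen_ball,
      Metric.mem_ball_self (by norm_num)⟩⟩, W0.toAffineSubspace, ⟨?_, ?_, ?_⟩, ?_⟩
  · rw [Submodule.toAffineSubspace_direction]; exact hW0r
  · rw [hc]; exact W0.zero_mem
  · obtain ⟨u, hu, huW⟩ := exists_normal W0 hW0r
    rw [hc]
    refine (section_iff h0 h1 W0 hW0r u hu huW).2 fun w hw => TM_pole s hu ?_ ?_ w hw
    · have := (huW !₂[1, -1, 0]).1 ((hW0m _).2 (by simp))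
      rw [inner3] at this
      simp at this
      linarith
    · have := (huW !₂[0, 1, -1]).1 ((hW0m _).2 (by simp))
      rw [inner3] at this
      simp at this
      linarith
  · rintro H ⟨hr, hmem, hsec⟩
    rw [hc] at hmem hsec
    have hH : ∀ x, x ∈ H ↔ x ∈ H.direction := by
      intro x
      rw [← AffineSubspace.vsub_right_mem_direction_iff_mem hmem]
      simp
    have hset : (H : Set E3) = (H.direction : Set E3) := Set.ext hH
    obtain ⟨u, hu, huW⟩ := exists_normal H.direction hr
    unfold sectionCentroid at hsec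
    rw [hset] at hsec
    obtain ⟨e1, e2⟩ := TM_zero hs hu ((section_iff h0 h1 _ hr u hu huW).1 hsec)
    have hu' : u 0 ^ 2 + u 1 ^ 2 + u 2 ^ 2 = 1 := by rw [← normsq3, hu]; norm_num
    have hu2 : u 2 ≠ 0 := by
      intro h; rw [e1, e2, h] at hu'; norm_num at hu'
    ext x
    rw [hH, huW, Submodule.mem_toAffineSubspace, hW0m, inner3, e1, e2]
    constructor
    · intro h
      have : u 2 * (x 0 + x 1 + x 2) = 0 := by linarith
      exact (mul_eq_zero.1 this).resolve_left hu2
    · intro h
      have : u 2 * (x 0 + x 1 + x 2) = 0 := by rw [h, mul_zero]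
      linarith

end Pool.Agent.Results.MP_be4961_gt.OnePlane
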